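import Pool.Agent.Helper40.CN.Spec

/-!
# CN, part AR
-/

set_option autoImplicit false

namespace Pool.Agent.Helper85.CN

open Pool.Agent.Helper40.CN
open commutatorElement

universe u

variable {N : Type u} [Group N]

lemma iterComm_mono {P P' : Subgroup N} (H : Subgroup N) (h : P ≤ P') (n : ℕ) :
    iterComm P H n ≤ iterComm P' H n := by
  induction n with
  | zero => exact h
  | succ n ih => exact Subgroup.commutator_mono ih le_rfl

lemma iterComm_add (P H : Subgroup N) (m s : ℕ) :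
    iterComm P H (m + s) = iterComm (iterComm P H m) H s := by
  induction s with
  | zero => rfl
  | succ s ih =>
    change ⁅iterComm P H (m + s), H⁆ = ⁅iterComm (iterComm P H m) H s, H⁆
    rw [ih]

/-- the data of a commuting situation -/
structure Sit (A Δ : Subgroup N) (z : N) : Prop where
  nor : A.Normal
  ab : ∀ a ∈ A, ∀ b ∈ A, a * b = b * a
  com : ∀ a ∈ A, ∀ δ ∈ Δ, δ * a = a * δ
  br : ∀ g, z * g * z⁻¹ * g⁻¹ ∈ Δ

lemma Sit.mem {A Δ : Subgroup N} {z : N} (h : Sit A Δ z) {a : N} (ha : a ∈ A) :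
    z * a * z⁻¹ * a⁻¹ ∈ A := mul_mem (h.nor.conj_mem a ha z) (inv_mem ha)

lemma Sit.mul {A Δ : Subgroup N} {z : N} (h : Sit A Δ z) {a b : N} (ha : a ∈ A) (hb : b ∈ A) :
    z * (a * b) * z⁻¹ * (a * b)⁻¹ = (z * a * z⁻¹ * a⁻¹) * (z * b * z⁻¹ * b⁻¹) := by
  have e : a⁻¹ * (z * b * z⁻¹ * b⁻¹) = (z * b * z⁻¹ * b⁻¹) * a⁻¹ :=
    h.ab _ (inv_mem ha) _ (h.mem hb)
  calc z * (a * b) * z⁻¹ * (a * b)⁻¹ = z * a * z⁻¹ * ((z * b * z⁻¹ * b⁻¹) * a⁻¹) := by group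
    _ = z * a * z⁻¹ * (a⁻¹ * (z * b * z⁻¹ * b⁻¹)) := by rw [e]
    _ = _ := by group

lemma Sit.equi {A Δ : Subgroup N} {z : N} (h : Sit A Δ z) {a : N} (ha : a ∈ A) (g : N) :
    z * (g * a * g⁻¹) * z⁻¹ * (g * a * g⁻¹)⁻¹ = g * (z * a * z⁻¹ * a⁻¹) * g⁻¹ := by
  have h1 : g * (z * a * z⁻¹) * g⁻¹ ∈ A := h.nor.conj_mem _ (h.nor.conj_mem a ha z) g
  have e := h.com _ h1 _ (h.br g)
  calc z * (g * a * g⁻¹) * z⁻¹ * (g * a * g⁻¹)⁻¹
      = (z * g * z⁻¹ * g⁻¹) * (g * (z * a * z⁻¹) * g⁻¹) * (z * g * z⁻¹ * g⁻¹)⁻¹ *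
        (g * a⁻¹ * g⁻¹) := by group
    _ = (g * (z * a * z⁻¹) * g⁻¹) * (z * g * z⁻¹ * g⁻¹) * (z * g * z⁻¹ * g⁻¹)⁻¹ *
        (g * a⁻¹ * g⁻¹) := by rw [e]
    _ = _ := by group

/-- the commutator map with `z` -/
def Sit.hom {A Δ : Subgroup N} {z : N} (h : Sit A Δ z) : A →* N where
  toFun a := z * (a : N) * z⁻¹ * (a : N)⁻¹
  map_one' := by simp
  map_mul' a b := by
    rw [Subgroup.coe_mul]
    exact h.mul a.2 b.2

lemma Sit.range_normal {A Δ : Subgroup N} {z : N} (h : Sit A Δ z) : h.hom.range.Normal := by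
  constructor
  rintro n ⟨a, rfl⟩ g
  exact ⟨⟨g * a * g⁻¹, h.nor.conj_mem a a.2 g⟩, h.equi a.2 g⟩

lemma Sit.range_le {A Δ : Subgroup N} {z : N} (h : Sit A Δ z) : h.hom.range ≤ A := by
  rintro n ⟨a, rfl⟩
  exact h.mem a.2

/-- the kernel -/
def Sit.ker {A Δ : Subgroup N} {z : N} (h : Sit A Δ z) : Subgroup N := h.hom.ker.map A.subtype

lemma Sit.mem_ker {A Δ : Subgroup N} {z : N} (h : Sit A Δ z) {a : N} :
    a ∈ h.ker ↔ a ∈ A ∧ z * a * z⁻¹ * a⁻¹ = 1 := by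
  constructor
  · rintro ⟨b, hb, rfl⟩
    exact ⟨b.2, hb⟩
  · rintro ⟨ha, hb⟩
    exact ⟨⟨a, ha⟩, hb, rfl⟩

lemma Sit.ker_normal {A Δ : Subgroup N} {z : N} (h : Sit A Δ z) : h.ker.Normal := by
  constructor
  intro a ha g
  rw [h.mem_ker] at ha ⊢
  exact ⟨h.nor.conj_mem a ha.1 g, by rw [h.equi ha.1 g, ha.2]; group⟩

lemma Sit.iter {A Δ : Subgroup N} {z : N} (h : Sit A Δ z) (i : ℕ) : iterComm A ⊤ i ≤ A ∧
    ∀ a ∈ iterComm A ⊤ i, z * a * z⁻¹ * a⁻¹ ∈ iterComm h.hom.range ⊤ i := by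
  induction i with
  | zero => exact ⟨le_rfl, fun a ha => ⟨⟨a, ha⟩, rfl⟩⟩
  | succ i ih =>
    have hle : iterComm A ⊤ (i + 1) ≤
        ((iterComm h.hom.range ⊤ (i + 1)).comap h.hom).map A.subtype := by
      change ⁅iterComm A ⊤ i, ⊤⁆ ≤ _
      rw [Subgroup.commutator_le]
      intro a ha g _
      have haA := ih.1 ha
      have hgA : g * a⁻¹ * g⁻¹ ∈ A := h.nor.conj_mem _ (inv_mem haA) g
      have e : ⁅a, g⁆ = a * (g * a⁻¹ * g⁻¹) := by rw [commutatorElement_def]; group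
      refine ⟨⟨a * (g * a⁻¹ * g⁻¹), mul_mem haA hgA⟩, ?_, e.symm⟩
      change z * (a * (g * a⁻¹ * g⁻¹)) * z⁻¹ * (a * (g * a⁻¹ * g⁻¹))⁻¹ ∈
        ⁅iterComm h.hom.range ⊤ i, (⊤ : Subgroup N)⁆
      rw [h.mul haA hgA, h.equi (inv_mem haA) g]
      have e2 : z * a⁻¹ * z⁻¹ * a⁻¹⁻¹ = (z * a * z⁻¹ * a⁻¹)⁻¹ := by
        have := h.hom.map_inv ⟨a, haA⟩
        exact this
      rw [e2]
      have e3 : z * a * z⁻¹ * a⁻¹ * (g * (z * a * z⁻¹ * a⁻¹)⁻¹ * g⁻¹) =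
          ⁅z * a * z⁻¹ * a⁻¹, g⁆ := by rw [commutatorElement_def]; group
      rw [e3]
      exact Subgroup.commutator_mem_commutator (ih.2 a ha) (Subgroup.mem_top g)
    constructor
    · intro a ha
      obtain ⟨b, _, rfl⟩ := hle ha
      exact b.2
    · intro a ha
      obtain ⟨b, hb, rfl⟩ := hle ha
      exact hb

lemma lcs_le (A : Subgroup N) (c : ℕ) (h : (⊤ : Subgroup N).lowerCentralSeries c ≤ A) (n : ℕ) :
    (⊤ : Subgroup N).lowerCentralSeries (c + n) ≤ iterComm A ⊤ n := by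
  induction n with
  | zero => exact h
  | succ n ih => exact Subgroup.commutator_mono ih le_rfl

/-- the property proved by climbing -/
def RR (A Δ : Subgroup N) : Prop := ∀ A' : Subgroup N, A'.Normal → A' ≤ A →
  (∀ a ∈ A', ∀ δ ∈ Δ, δ * a = a * δ) → ∃ n, iterComm A' ⊤ n = ⊥

lemma step (A Δ : Subgroup N) (z : N) (hA : ∀ a ∈ A, ∀ b ∈ A, a * b = b * a)
    (hz : ∀ g, z * g * z⁻¹ * g⁻¹ ∈ Δ) (hR : RR A (Δ ⊔ Subgroup.zpowers z)) (n : ℕ) :
    ∀ A' : Subgroup N, A'.Normal → A' ≤ A → (∀ a ∈ A', ∀ δ ∈ Δ, δ * a = a * δ) →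
    (∀ a ∈ A', (fun a : N => z * a * z⁻¹ * a⁻¹)^[n] a = 1) → ∃ n, iterComm A' ⊤ n = ⊥ := by
  induction n with
  | zero =>
    intro A' _ _ _ h1
    refine ⟨0, ?_⟩
    rw [eq_bot_iff]
    intro a ha
    exact h1 a ha
  | succ n ih =>
    intro A' hn hle hcom h1
    have hS : Sit A' Δ z := ⟨hn, fun a ha b hb => hA a (hle ha) b (hle hb), hcom, hz⟩
    obtain ⟨m, hm⟩ := ih hS.hom.range hS.range_normal (hS.range_le.trans hle)
      (fun a ha => hcom a (hS.range_le ha)) (by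
        rintro a ⟨b, rfl⟩
        have := h1 b b.2
        rw [Function.iterate_succ_apply] at this
        exact this)
    obtain ⟨s, hs⟩ := hR hS.ker hS.ker_normal (fun a ha => hle (hS.mem_ker.1 ha).1) (by
      intro a ha
      have h2 : Δ ⊔ Subgroup.zpowers z ≤ Subgroup.centralizer {a} := by
        rw [sup_le_iff, Subgroup.zpowers_le]
        refine ⟨fun δ hδ => ?_, ?_⟩
        · rw [Subgroup.mem_centralizer_singleton_iff]
          exact hcom a (hS.mem_ker.1 ha).1 δ hδ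
        · rw [Subgroup.mem_centralizer_singleton_iff]
          have := (hS.mem_ker.1 ha).2
          rw [mul_inv_eq_one, mul_inv_eq_iff_eq_mul] at this
          exact this
      intro δ hδ
      have := h2 hδ
      rw [Subgroup.mem_centralizer_singleton_iff] at this
      exact this)
    refine ⟨m + s, ?_⟩
    rw [iterComm_add, eq_bot_iff, ← hs]
    refine iterComm_mono ⊤ (fun a ha => ?_) s
    have h3 := (hS.iter m).2 a ha
    rw [hm, Subgroup.mem_bot] at h3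
    exact hS.mem_ker.2 ⟨(hS.iter m).1 ha, h3⟩

theorem ar (hCL : S_CL.{u}) (hFIT : S_FIT.{u}) : S_AR.{u} := by
  intro N _ _ A hAn hA hnil hMax B hB hess
  have key : RR A ⊤ → RR A A := by
    refine hCL N A hnil (fun Δ => RR A Δ → RR A A) id ?_
    intro Δ _ _ ih z hz hR
    refine ih ?_
    intro A' hn hle hcom
    have hA' : ∀ a ∈ A', ∀ b ∈ A', a * b = b * a := fun a ha b hb => hA a (hle ha) b (hle hb)
    obtain ⟨n, hn'⟩ := hFIT N A' B hMax hA' hB hess z (fun g a ha => hcom a ha _ (hz g))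
    exact step A Δ z hA hz hR n A' hn hle hcom hn'
  have htop : RR A ⊤ := by
    intro A' _ _ hcom
    refine ⟨1, ?_⟩
    change ⁅A', ⊤⁆ = ⊥
    rw [Subgroup.commutator_eq_bot_iff_le_centralizer]
    intro a ha
    rw [Subgroup.mem_centralizer_iff]
    intro g _
    exact hcom a ha g (Subgroup.mem_top g)
  obtain ⟨n, hn⟩ := key htop A hAn le_rfl (fun a ha δ hδ => hA δ hδ a ha)
  obtain ⟨c, hc⟩ := Subgroup.nilpotent_iff_lowerCentralSeries.1 hnil
  have hcA : (⊤ : Subgroup N).lowerCentralSeries c ≤ A := by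
    have h1 : ((⊤ : Subgroup N).lowerCentralSeries c).map (QuotientGroup.mk' A) ≤
        (⊤ : Subgroup (N ⧸ A)).lowerCentralSeries c := by
      rw [Subgroup.map_lowerCentralSeries]
      exact Subgroup.lowerCentralSeries_mono c le_top
    rw [hc, le_bot_iff, Subgroup.map_eq_bot_iff, QuotientGroup.ker_mk'] at h1
    exact h1
  rw [Subgroup.nilpotent_iff_lowerCentralSeries]
  refine ⟨c + n, ?_⟩
  rw [eq_bot_iff, ← hn]
  exact lcs_le A c hcA n

end Pool.Agent.Helper85.CN
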