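import Pool.Agent.Helper40.CN.Spec

/-!
# CN, part NOS: Hilbert's basis theorem for one more generator
-/

set_option autoImplicit false

namespace Pool.Agent.Helper85.CN

open Pool.Agent.Helper40.CN

universe u

variable {Γ : Type u} [Group Γ] {V : Type u} [AddCommGroup V] [DistribMulAction Γ V]

/-- elements which preserve `W` in both directions -/
def stab (W : AddSubgroup V) : Subgroup Γ where
  carrier := {g | ∀ v ∈ W, g • v ∈ W ∧ g⁻¹ • v ∈ W}
  one_mem' := fun v hv => by simpa using hv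
  mul_mem' := fun {a b} ha hb v hv => by
    refine ⟨?_, ?_⟩
    · rw [mul_smul]; exact (ha _ (hb v hv).1).1
    · rw [mul_inv_rev, mul_smul]; exact (hb _ (ha v hv).2).2
  inv_mem' := fun {a} ha v hv => ⟨(ha v hv).2, by rw [inv_inv]; exact (ha v hv).1⟩

/-- `∑_{i<n} x^i U0` -/
def FS (x : Γ) (U0 : AddSubgroup V) (n : ℕ) : AddSubgroup V :=
  AddSubgroup.closure {v | ∃ i < n, ∃ a ∈ U0, v = x ^ i • a}

lemma conj_pow {Δ : Subgroup Γ} {x : Γ} (h : ∀ δ ∈ Δ, x * δ * x⁻¹ ∈ Δ ∧ x⁻¹ * δ * x ∈ Δ)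
    (i : ℕ) : ∀ δ ∈ Δ, x ^ i * δ * (x ^ i)⁻¹ ∈ Δ ∧ (x ^ i)⁻¹ * δ * x ^ i ∈ Δ := by
  induction i with
  | zero => intro δ hδ; simpa using hδ
  | succ i ih =>
    intro δ hδ
    constructor
    · have := (h _ (ih δ hδ).1).1
      have e : x ^ (i + 1) * δ * (x ^ (i + 1))⁻¹ = x * (x ^ i * δ * (x ^ i)⁻¹) * x⁻¹ := by
        rw [pow_succ']; group
      rw [e]; exact this
    · have := (ih _ (h δ hδ).2).2
      have e : (x ^ (i + 1))⁻¹ * δ * x ^ (i + 1) = (x ^ i)⁻¹ * (x⁻¹ * δ * x) * x ^ i := by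
        rw [pow_succ']; group
      rw [e]; exact this

lemma FS_mono (x : Γ) (U0 : AddSubgroup V) {m n : ℕ} (h : m ≤ n) : FS x U0 m ≤ FS x U0 n := by
  refine AddSubgroup.closure_mono ?_
  rintro v ⟨i, hi, a, ha, rfl⟩
  exact ⟨i, lt_of_lt_of_le hi h, a, ha, rfl⟩

lemma FS_base (x : Γ) (U0 : AddSubgroup V) {n i : ℕ} (h : i < n) {a : V} (ha : a ∈ U0) :
    x ^ i • a ∈ FS x U0 n := AddSubgroup.subset_closure ⟨i, h, a, ha, rfl⟩

lemma FS_shift (x : Γ) (U0 : AddSubgroup V) (n k : ℕ) {v : V} (hv : v ∈ FS x U0 n) :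
    x ^ k • v ∈ FS x U0 (n + k) := by
  induction hv using AddSubgroup.closure_induction with
  | mem v hv =>
    obtain ⟨i, hi, a, ha, rfl⟩ := hv
    rw [← mul_smul, ← pow_add]
    exact FS_base x U0 (by omega) ha
  | zero => rw [smul_zero]; exact zero_mem _
  | add a b _ _ iha ihb => rw [smul_add]; exact add_mem iha ihb
  | neg a _ iha => rw [smul_neg]; exact neg_mem iha

lemma FS_inv {Δ : Subgroup Γ} {x : Γ} (h : ∀ δ ∈ Δ, x * δ * x⁻¹ ∈ Δ ∧ x⁻¹ * δ * x ∈ Δ)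
    {U0 : AddSubgroup V} (hU : DInv Δ U0) (n : ℕ) : DInv Δ (FS x U0 n) := by
  intro δ hδ v hv
  induction hv using AddSubgroup.closure_induction with
  | mem v hv =>
    obtain ⟨i, hi, a, ha, rfl⟩ := hv
    have e : δ • x ^ i • a = x ^ i • (((x ^ i)⁻¹ * δ * x ^ i) • a) := by
      rw [← mul_smul, ← mul_smul]; congr 1; group
    rw [e]
    exact FS_base x U0 hi (hU _ (conj_pow h i δ hδ).2 a ha)
  | zero => rw [smul_zero]; exact zero_mem _
  | add a b _ _ iha ihb => rw [smul_add]; exact add_mem iha ihb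
  | neg a _ iha => rw [smul_neg]; exact neg_mem iha

lemma FS_succ (x : Γ) (U0 : AddSubgroup V) (n : ℕ) {v : V} (hv : v ∈ FS x U0 (n + 1)) :
    ∃ a ∈ U0, v - x ^ n • a ∈ FS x U0 n := by
  induction hv using AddSubgroup.closure_induction with
  | mem v hv =>
    obtain ⟨i, hi, a, ha, rfl⟩ := hv
    rcases Nat.lt_succ_iff_lt_or_eq.1 hi with h | rfl
    · exact ⟨0, zero_mem _, by rw [smul_zero, sub_zero]; exact FS_base x U0 h ha⟩
    · exact ⟨a, ha, by rw [sub_self]; exact zero_mem _⟩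
  | zero => exact ⟨0, zero_mem _, by rw [smul_zero, sub_zero]; exact zero_mem _⟩
  | add a b _ _ iha ihb =>
    obtain ⟨a', ha', ha⟩ := iha
    obtain ⟨b', hb', hb⟩ := ihb
    refine ⟨a' + b', add_mem ha' hb', ?_⟩
    have e : a + b - x ^ n • (a' + b') = (a - x ^ n • a') + (b - x ^ n • b') := by
      rw [smul_add]; abel
    rw [e]; exact add_mem ha hb
  | neg a _ iha =>
    obtain ⟨a', ha', ha⟩ := iha
    refine ⟨-a', neg_mem ha', ?_⟩
    have e : -a - x ^ n • (-a') = -(a - x ^ n • a') := by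
      rw [smul_neg]; abel
    rw [e]; exact neg_mem ha

lemma FS_zero (x : Γ) (U0 : AddSubgroup V) {v : V} (hv : v ∈ FS x U0 0) : v = 0 := by
  have : {v | ∃ i < 0, ∃ a ∈ U0, v = x ^ i • a} = (∅ : Set V) := by
    ext v; simp
  unfold FS at hv
  rw [this, AddSubgroup.closure_empty] at hv
  exact hv

/-- `{v | x^n v ∈ W + F_n}` -/
def LL (x : Γ) (W F : AddSubgroup V) (n : ℕ) : AddSubgroup V where
  carrier := {a | ∃ w ∈ W, x ^ n • a - w ∈ F}
  zero_mem' := ⟨0, zero_mem _, by rw [smul_zero, sub_zero]; exact zero_mem _⟩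
  add_mem' := by
    rintro a b ⟨w, hw, ha⟩ ⟨w', hw', hb⟩
    refine ⟨w + w', add_mem hw hw', ?_⟩
    have e : x ^ n • (a + b) - (w + w') = (x ^ n • a - w) + (x ^ n • b - w') := by
      rw [smul_add]; abel
    rw [e]; exact add_mem ha hb
  neg_mem' := by
    rintro a ⟨w, hw, ha⟩
    refine ⟨-w, neg_mem hw, ?_⟩
    have e : x ^ n • (-a) - (-w) = -(x ^ n • a - w) := by
      rw [smul_neg]; abel
    rw [e]; exact neg_mem ha

lemma LL_inv {Δ : Subgroup Γ} {x : Γ} (h : ∀ δ ∈ Δ, x * δ * x⁻¹ ∈ Δ ∧ x⁻¹ * δ * x ∈ Δ)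
    {W F : AddSubgroup V} (hW : DInv Δ W) (hF : DInv Δ F) (n : ℕ) : DInv Δ (LL x W F n) := by
  rintro δ hδ a ⟨w, hw, ha⟩
  have hc := (conj_pow h n δ hδ).1
  refine ⟨(x ^ n * δ * (x ^ n)⁻¹) • w, hW _ hc w hw, ?_⟩
  have e : x ^ n • δ • a - (x ^ n * δ * (x ^ n)⁻¹) • w =
      (x ^ n * δ * (x ^ n)⁻¹) • (x ^ n • a - w) := by
    rw [smul_sub, ← mul_smul, ← mul_smul]
    congr 2
    group
  rw [e]
  exact hF _ hc _ ha

theorem nos : S_NOS.{u} := by
  intro Γ _ Δ x V _ _ h hNN U' U hU'U hU' hU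
  obtain ⟨Y, hY, rfl⟩ := hU
  set Δ' : Subgroup Γ := Δ ⊔ Subgroup.zpowers x with hΔ'
  have hxΔ' : x ∈ Δ' := (le_sup_right : Subgroup.zpowers x ≤ Δ') (Subgroup.mem_zpowers x)
  have hΔΔ' : Δ ≤ Δ' := le_sup_left
  have hU'Δ : DInv Δ U' := fun δ hδ v hv => hU' δ (hΔΔ' hδ) v hv
  set U0 : AddSubgroup V := AddSubgroup.closure {v | ∃ δ ∈ Δ, ∃ y ∈ Y, v = δ • y} with hU0
  have hU0g : DFG Δ U0 := ⟨Y, hY, hU0⟩
  have dinv_of_dfg : ∀ (D : Subgroup Γ) (Z : Set V),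
      DInv D (AddSubgroup.closure {v | ∃ δ ∈ D, ∃ y ∈ Z, v = δ • y}) := by
    intro D Z δ hδ v hv
    induction hv using AddSubgroup.closure_induction with
    | mem v hv =>
      obtain ⟨ε, hε, y, hy, rfl⟩ := hv
      rw [← mul_smul]
      exact AddSubgroup.subset_closure ⟨δ * ε, mul_mem hδ hε, y, hy, rfl⟩
    | zero => rw [smul_zero]; exact zero_mem _
    | add a b _ _ iha ihb => rw [smul_add]; exact add_mem iha ihb
    | neg a _ iha => rw [smul_neg]; exact neg_mem iha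
  have hU0i : DInv Δ U0 := dinv_of_dfg Δ Y
  -- the leading coefficients
  set L : ℕ → AddSubgroup V := fun n => U0 ⊓ LL x U' (FS x U0 n) n with hL
  have hLi : ∀ n, DInv Δ (L n) := fun n δ hδ v hv =>
    ⟨hU0i δ hδ v hv.1, LL_inv h hU'Δ (FS_inv h hU0i n) n δ hδ v hv.2⟩
  have hLmono : Monotone L := by
    refine monotone_nat_of_le_succ fun n => ?_
    rintro a ⟨ha, w, hw, haw⟩
    refine ⟨ha, x • w, hU' x hxΔ' w hw, ?_⟩
    have e : x ^ (n + 1) • a - x • w = x ^ 1 • (x ^ n • a - w) := by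
      rw [pow_one, smul_sub, ← mul_smul, pow_succ']
    rw [e]
    exact FS_shift x U0 n 1 haw
  have hdir : Directed (· ≤ ·) L := hLmono.directed_le
  have hLg : ∀ n, DFG Δ (L n) := fun n => hNN (L n) U0 inf_le_left (hLi n) hU0g
  have hLinf : DFG Δ (⨆ n, L n) := by
    refine hNN _ U0 (iSup_le fun n => inf_le_left) ?_ hU0g
    intro δ hδ v hv
    rw [AddSubgroup.mem_iSup_of_directed hdir] at hv ⊢
    obtain ⟨n, hn⟩ := hv
    exact ⟨n, hLi n δ hδ v hn⟩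
  obtain ⟨n0, hn0⟩ : ∃ n0, ∀ n, L n ≤ L n0 := by
    obtain ⟨Z, hZ, hZe⟩ := hLinf
    have h1 : ∀ y ∈ Z, ∃ n, y ∈ L n := by
      intro y hy
      have : y ∈ ⨆ n, L n := by
        rw [hZe]
        exact AddSubgroup.subset_closure ⟨1, one_mem _, y, hy, (one_smul _ _).symm⟩
      rwa [AddSubgroup.mem_iSup_of_directed hdir] at this
    have h2 : ∃ n0, ∀ y ∈ Z, y ∈ L n0 := by
      choose! f hf using h1
      obtain ⟨b, hb⟩ := (hZ.image f).bddAbove
      exact ⟨b, fun y hy => hLmono (hb ⟨y, hy, rfl⟩) (hf y hy)⟩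
    obtain ⟨n0, hn0⟩ := h2
    refine ⟨n0, fun n => (le_iSup L n).trans ?_⟩
    rw [hZe, AddSubgroup.closure_le]
    rintro v ⟨δ, hδ, y, hy, rfl⟩
    exact hLi n0 δ hδ y (hn0 y hy)
  choose Yn hYn hYne using hLg
  have hw : ∀ n, ∀ a, a ∈ L n → ∃ w, w ∈ U' ∧ x ^ n • a - w ∈ FS x U0 n := by
    intro n a ha
    obtain ⟨_, w, hw, h3⟩ := ha
    exact ⟨w, hw, h3⟩
  choose! w hwU hwF using hw
  have hYL : ∀ n, ∀ y ∈ Yn n, y ∈ L n := by
    intro n y hy
    rw [hYne n]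
    exact AddSubgroup.subset_closure ⟨1, one_mem _, y, hy, (one_smul _ _).symm⟩
  set G : Set V := ⋃ n ∈ Set.Iic n0, w n '' Yn n with hG
  have hGfin : G.Finite := (Set.finite_Iic n0).biUnion fun n _ => (hYn n).image _
  set U'' : AddSubgroup V := AddSubgroup.closure {v | ∃ δ ∈ Δ', ∃ y ∈ G, v = δ • y} with hU''
  have hGU : ∀ y ∈ G, y ∈ U' := by
    intro y hy
    simp only [hG, Set.mem_iUnion] at hy
    obtain ⟨n, _, a, ha, rfl⟩ := hy
    exact hwU n a (hYL n a ha)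
  have hle : U'' ≤ U' := by
    rw [hU'', AddSubgroup.closure_le]
    rintro v ⟨δ, hδ, y, hy, rfl⟩
    exact hU' δ hδ y (hGU y hy)
  have hU''i : DInv Δ' U'' := dinv_of_dfg Δ' G
  have hGU'' : ∀ y ∈ G, y ∈ U'' := fun y hy =>
    AddSubgroup.subset_closure ⟨1, one_mem _, y, hy, (one_smul _ _).symm⟩
  -- leading terms can be removed
  have hstep0 : ∀ n ≤ n0, L n ≤ LL x U'' (FS x U0 n) n := by
    intro n hn
    rw [hYne n, AddSubgroup.closure_le]
    rintro v ⟨δ, hδ, y, hy, rfl⟩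
    refine LL_inv h (fun δ hδ v hv => hU''i δ (hΔΔ' hδ) v hv) (FS_inv h hU0i n) n δ hδ y ?_
    refine ⟨w n y, hGU'' _ ?_, hwF n y (hYL n y hy)⟩
    simp only [hG, Set.mem_iUnion]
    exact ⟨n, hn, y, hy, rfl⟩
  have hstep : ∀ n, L n ≤ LL x U'' (FS x U0 n) n := by
    intro n
    rcases le_total n n0 with hn | hn
    · exact hstep0 n hn
    · intro a ha
      obtain ⟨u, hu, hf⟩ := hstep0 n0 le_rfl (hn0 n ha)
      refine ⟨x ^ (n - n0) • u, hU''i _ (pow_mem hxΔ' _) u hu, ?_⟩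
      have e : x ^ n • a - x ^ (n - n0) • u = x ^ (n - n0) • (x ^ n0 • a - u) := by
        rw [smul_sub, ← mul_smul, ← pow_add, Nat.sub_add_cancel hn]
      rw [e]
      have := FS_shift x U0 n0 (n - n0) hf
      rwa [Nat.add_sub_cancel' hn] at this
  have hmain : ∀ n, ∀ u ∈ U', u ∈ FS x U0 n → u ∈ U'' := by
    intro n
    induction n with
    | zero =>
      intro u _ hf
      rw [FS_zero x U0 hf]; exact zero_mem _
    | succ n ih =>
      intro u hu hf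
      obtain ⟨a, ha, hfa⟩ := FS_succ x U0 n hf
      have haL : a ∈ L n := by
        refine ⟨ha, u, hu, ?_⟩
        have e : x ^ n • a - u = -(u - x ^ n • a) := by abel
        rw [e]; exact neg_mem hfa
      obtain ⟨u1, hu1, hf1⟩ := hstep n haL
      have h4 : u - u1 ∈ U'' := by
        refine ih _ (sub_mem hu (hle hu1)) ?_
        have e : u - u1 = (u - x ^ n • a) + (x ^ n • a - u1) := by abel
        rw [e]; exact add_mem hfa hf1
      have e : u = (u - u1) + u1 := by abel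
      rw [e]; exact add_mem h4 hu1
  -- every element of `U` can be moved into some `F_m`
  let W : AddSubgroup V :=
    { carrier := {v | ∃ K m : ℕ, x ^ K • v ∈ FS x U0 m}
      zero_mem' := ⟨0, 0, by rw [smul_zero]; exact zero_mem _⟩
      add_mem' := by
        rintro a b ⟨K, m, ha⟩ ⟨K', m', hb⟩
        refine ⟨K + K', (m + K') + (m' + K), ?_⟩
        have e : x ^ (K + K') • (a + b) = x ^ K' • (x ^ K • a) + x ^ K • (x ^ K' • b) := by
          rw [smul_add, ← mul_smul, ← mul_smul, ← pow_add, ← pow_add, add_comm K' K]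
        rw [e]
        exact add_mem (FS_mono x U0 (by omega) (FS_shift x U0 m K' ha))
          (FS_mono x U0 (by omega) (FS_shift x U0 m' K hb))
      neg_mem' := by
        rintro a ⟨K, m, ha⟩
        exact ⟨K, m, by rw [smul_neg]; exact neg_mem ha⟩ }
  have hWΔ : Δ ≤ stab W := by
    have h1 : ∀ δ ∈ Δ, ∀ v ∈ W, δ • v ∈ W := by
      rintro δ hδ v ⟨K, m, hv⟩
      refine ⟨K, m, ?_⟩
      have e : x ^ K • δ • v = (x ^ K * δ * (x ^ K)⁻¹) • (x ^ K • v) := by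
        rw [← mul_smul, ← mul_smul]; congr 1; group
      rw [e]
      exact FS_inv h hU0i m _ (conj_pow h K δ hδ).1 _ hv
    exact fun δ hδ v hv => ⟨h1 δ hδ v hv, h1 _ (inv_mem hδ) v hv⟩
  have hWx : x ∈ stab W := by
    rintro v ⟨K, m, hv⟩
    refine ⟨⟨K, m + 1, ?_⟩, ⟨K + 1, m, ?_⟩⟩
    · have e : x ^ K • x • v = x ^ 1 • (x ^ K • v) := by
        rw [← mul_smul, ← mul_smul, pow_one, ← pow_succ, ← pow_succ']
      rw [e]; exact FS_shift x U0 m 1 hv
    · have e : x ^ (K + 1) • x⁻¹ • v = x ^ K • v := by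
        rw [← mul_smul, pow_succ, mul_assoc, mul_inv_cancel, mul_one]
      rw [e]; exact hv
  have hWΔ' : Δ' ≤ stab W := by
    rw [hΔ', sup_le_iff]
    refine ⟨hWΔ, ?_⟩
    rw [Subgroup.zpowers_le]
    exact hWx
  have hUW : AddSubgroup.closure {v | ∃ δ ∈ Δ', ∃ y ∈ Y, v = δ • y} ≤ W := by
    rw [AddSubgroup.closure_le]
    rintro v ⟨δ, hδ, y, hy, rfl⟩
    refine (hWΔ' hδ y ⟨0, 1, ?_⟩).1
    exact FS_base x U0 (by omega)
      (AddSubgroup.subset_closure ⟨1, one_mem _, y, hy, (one_smul _ _).symm⟩)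
  refine ⟨G, hGfin, le_antisymm ?_ hle⟩
  intro u hu
  obtain ⟨K, m, hKm⟩ := hUW (hU'U hu)
  have h5 : x ^ K • u ∈ U'' := hmain m _ (hU' _ (pow_mem hxΔ' K) u hu) hKm
  have h6 := hU''i (x ^ K)⁻¹ (inv_mem (pow_mem hxΔ' K)) _ h5
  rwa [inv_smul_smul] at h6

end Pool.Agent.Helper85.CN
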